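import Mathlib

/-!
Words over a finite alphabet, ordered by ordered surjections (a consequence of Higman's lemma),
lexicographic comparison, and an abstract chain lemma.
-/

namespace Pool.Agent.Lib.MP_d8c2c9_al

/-- Words of arbitrary length over `α`. -/
abbrev Word (α : Type*) := Σ n : ℕ, (Fin n → α)

/-- `OS w w'`: the word `w'` is `w ∘ f` for a surjection `f` of the positions such that the
first occurrences `m i` of the values `i` of `f` are increasing. -/
def OS {α : Type*} (w w' : Word α) : Prop :=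
  ∃ (m : Fin w.1 ↪o Fin w'.1) (f : Fin w'.1 → Fin w.1),
    (∀ i, f (m i) = i) ∧ (∀ j, m (f j) ≤ j) ∧ ∀ j, w'.2 j = w.2 (f j)

/-- Encoding of a word as a list remembering at every position the set of earlier letters. -/
def enc {α : Type*} (w : Word α) : List (α × Set α) :=
  List.ofFn (fun i => (w.2 i, {a | ∃ l, l < i ∧ w.2 l = a}))

theorem os_of_enc_sublist {α : Type*} (w w' : Word α) (h : List.Sublist (enc w) (enc w'))
    (hs : Set.range w.2 = Set.range w'.2) : OS w w' := by
  classical
  rw [List.sublist_iff_exists_fin_orderEmbedding_get_eq] at h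
  obtain ⟨F, hF⟩ := h
  have e1 : (enc w).length = w.1 := by simp [enc]
  have e2 : (enc w').length = w'.1 := by simp [enc]
  let m : Fin w.1 ↪o Fin w'.1 :=
    ((Fin.castOrderIso e1).symm.toOrderEmbedding.trans F).trans
      (Fin.castOrderIso e2).toOrderEmbedding
  have hm : ∀ i, (w.2 i, {a | ∃ l, l < i ∧ w.2 l = a}) =
      (w'.2 (m i), {a | ∃ l, l < m i ∧ w'.2 l = a}) := by
    intro i
    have := hF ((Fin.castOrderIso e1).symm i)
    simp only [enc, List.get_ofFn] at this
    exact this
  have key : ∀ j, ∃ i, m i ≤ j ∧ w'.2 j = w.2 i ∧ ∀ i', m i' = j → i = i' := by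
    intro j
    by_cases hj : ∃ i, m i = j
    · obtain ⟨i, rfl⟩ := hj
      exact ⟨i, le_rfl, (congrArg Prod.fst (hm i)).symm, fun i' hi' => (m.injective hi').symm⟩
    · have hj' : w'.2 j ∈ Set.range w.2 := by rw [hs]; exact ⟨j, rfl⟩
      have hne : {i | w.2 i = w'.2 j}.Nonempty := hj'
      obtain ⟨i, hi, hmin⟩ := (wellFounded_lt (α := Fin w.1)).has_min _ hne
      refine ⟨i, ?_, hi.symm, fun i' hi' => (hj ⟨i', hi'⟩).elim⟩
      by_contra hlt
      rw [not_le] at hlt
      have h1 : w'.2 j ∈ {a | ∃ l, l < m i ∧ w'.2 l = a} := ⟨j, hlt, rfl⟩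
      have h2 : {a | ∃ l, l < i ∧ w.2 l = a} = {a | ∃ l, l < m i ∧ w'.2 l = a} :=
        congrArg Prod.snd (hm i)
      rw [← h2] at h1
      obtain ⟨l, hl, hl'⟩ := h1
      exact hmin l hl' hl
  choose f hf1 hf2 hf3 using key
  exact ⟨m, f, fun i => hf3 _ _ rfl, hf1, hf2⟩

theorem wqo_list {β : Type*} [Finite β] : WellQuasiOrdered (List.Sublist (α := β)) := by
  intro g
  have h := Set.PartiallyWellOrderedOn.partiallyWellOrderedOn_sublistForall₂ (α := β) (· = ·)
    (s := Set.univ) (by
      rw [Set.partiallyWellOrderedOn_iff_exists_lt]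
      intro f _
      exact Finite.wellQuasiOrdered (α := β) (· = ·) f)
  rw [Set.partiallyWellOrderedOn_iff_exists_lt] at h
  obtain ⟨i, j, hij, h'⟩ := h g (by simp)
  refine ⟨i, j, hij, ?_⟩
  rw [List.sublistForall₂_iff] at h'
  obtain ⟨l, hl1, hl2⟩ := h'
  rw [List.forall₂_eq_eq_eq] at hl1
  rwa [hl1]

theorem wqo_os {α κ : Type*} [Finite α] [Finite κ] (g : ℕ → Word α) (c : ℕ → κ) :
    ∃ i j, i < j ∧ OS (g i) (g j) ∧ c i = c j := by
  have h1 : WellQuasiOrdered (List.Sublist (α := α × Set α)) := wqo_list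
  have h2 : WellQuasiOrdered (fun x y : Set α × κ => x = y) := Finite.wellQuasiOrdered _
  have : IsPreorder (List (α × Set α)) List.Sublist :=
    { refl := List.Sublist.refl
      trans := fun a b c => List.Sublist.trans }
  obtain ⟨i, j, hij, h3, h4⟩ := (h1.prod h2) (fun n => (enc (g n), (Set.range (g n).2, c n)))
  refine ⟨i, j, hij, os_of_enc_sublist _ _ h3 ?_, ?_⟩
  · exact congrArg Prod.fst h4
  · exact congrArg Prod.snd h4

/-- Chain lemma: an ascending chain of maps from words to a finite ordered set, each monotone for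
`OS`, has two equal consecutive terms. -/
theorem chain_lemma {α T : Type*} [Finite α] [Finite T] [PartialOrder T]
    (Φ : ℕ → Word α → T) (h1 : ∀ w, Monotone (fun i => Φ i w))
    (h2 : ∀ i w w', OS w w' → Φ i w ≤ Φ i w') : ∃ i, ∀ w, Φ i w = Φ (i + 1) w := by
  by_contra hcon
  push Not at hcon
  choose w hw using hcon
  obtain ⟨i, j, hij, hos, hc⟩ := wqo_os w (fun n => (Φ n (w n), Φ (n + 1) (w n)))
  apply hw i
  apply le_antisymm (h1 (w i) (Nat.le_succ i))
  calc Φ (i + 1) (w i) ≤ Φ j (w i) := h1 (w i) hij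
    _ ≤ Φ j (w j) := h2 j _ _ hos
    _ = Φ i (w i) := (congrArg Prod.fst hc).symm

/-- Precomposition with an ordered surjection is strictly monotone for the lexicographic order. -/
theorem lex_comp_lt {α : Type*} [LinearOrder α] {n n' : ℕ} (m : Fin n ↪o Fin n')
    (f : Fin n' → Fin n) (h1 : ∀ i, f (m i) = i) (h2 : ∀ j, m (f j) ≤ j) {v w : Fin n → α}
    (h : toLex v < toLex w) : toLex (v ∘ f) < toLex (w ∘ f) := by
  obtain ⟨i, hi1, hi2⟩ := h
  refine ⟨m i, fun j hj => ?_, ?_⟩
  · have : f j < i := by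
      rw [← m.lt_iff_lt]
      exact lt_of_le_of_lt (h2 j) hj
    exact hi1 (f j) this
  · simpa [h1] using hi2

theorem lex_comp_lt_iff {α : Type*} [LinearOrder α] {n n' : ℕ} (m : Fin n ↪o Fin n')
    (f : Fin n' → Fin n) (h1 : ∀ i, f (m i) = i) (h2 : ∀ j, m (f j) ≤ j) {v w : Fin n → α} :
    toLex (v ∘ f) < toLex (w ∘ f) ↔ toLex v < toLex w := by
  refine ⟨fun h => ?_, lex_comp_lt m f h1 h2⟩
  by_contra hcon
  rcases (not_lt.mp hcon).lt_or_eq with h' | h'
  · exact lt_asymm h (lex_comp_lt m f h1 h2 h')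
  · have : w = v := toLex.injective h'
    subst this
    exact lt_irrefl _ h

/-- Elimination: a set of functions is determined by its set of first values. -/
theorem elim_lemma {X N : Type*} [Finite X] [LinearOrder X] [AddCommGroup N]
    (H K : Set (X → N)) (h0 : (0 : X → N) ∈ H) (hadd : ∀ u ∈ H, ∀ v ∈ H, u + v ∈ H)
    (hsub : ∀ u ∈ K, ∀ v ∈ H, u - v ∈ K)
    (h : ∀ w, ∀ u ∈ K, (∀ v < w, u v = 0) → ∃ u' ∈ H, (∀ v < w, u' v = 0) ∧ u' w = u w) :
    K ⊆ H := by
  intro u hu
  have step : ∀ w : X, ∀ g ∈ H, (∀ v < w, u v = g v) → u ∈ H := by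
    intro w
    induction w using WellFoundedGT.induction with
    | ind w ih =>
      intro g hg hgw
      obtain ⟨g', hg', hg'1, hg'2⟩ := h w (u - g) (hsub u hu g hg) (fun v hv => by
        simp [hgw v hv])
      have hle : ∀ v ≤ w, u v = (g + g') v := by
        intro v hv
        rcases hv.lt_or_eq with hv | rfl
        · simp [hgw v hv, hg'1 v hv]
        · simp [hg'2]
      by_cases hne : u = g + g'
      · rw [hne]; exact hadd _ hg _ hg'
      · have : {v | u v ≠ (g + g') v}.Nonempty := by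
          by_contra hemp
          apply hne
          funext v
          by_contra hv
          exact hemp ⟨v, hv⟩
        obtain ⟨w', hw', hmin⟩ := (wellFounded_lt (α := X)).has_min _ this
        refine ih w' ?_ (g + g') (hadd _ hg _ hg') (fun v hv => ?_)
        · by_contra hcon
          exact hw' (hle w' (not_lt.mp hcon))
        · by_contra hv'
          exact hmin v hv' hv
  by_cases hz : u = 0
  · rw [hz]; exact h0
  · have : {v | u v ≠ (0 : X → N) v}.Nonempty := by
      by_contra hemp
      apply hz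
      funext v
      by_contra hv
      exact hemp ⟨v, hv⟩
    obtain ⟨w', hw', hmin⟩ := (wellFounded_lt (α := X)).has_min _ this
    refine step w' 0 h0 (fun v hv => ?_)
    by_contra hv'
    exact hmin v hv' hv

end Pool.Agent.Lib.MP_d8c2c9_al
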